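import Mathlib

/-! Statement level definitions: uniform polytopes in 5-space, Wythoffian polytopes, the grand antiprism prism. -/

namespace Pool.Agent.MP_7fd204_co

open scoped Pointwise

noncomputable section

/-- Euclidean 5-space -/
abbrev E5 : Type := EuclideanSpace ℝ (Fin 5)

variable {E : Type} [NormedAddCommGroup E] [InnerProductSpace ℝ E]

/-- dimension of the affine hull -/
def dim (P : Set E) : ℕ := Module.finrank ℝ (vectorSpan ℝ P)

/-- convex `n`-polytope: convex hull of finitely many points, of dimension `n` -/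
def IsPolytope (n : ℕ) (P : Set E) : Prop :=
  (∃ V : Finset E, V.Nonempty ∧ P = convexHull ℝ (V : Set E)) ∧ dim P = n

/-- `F` is a `k`-dimensional face of `P` -/
def IsFace (P : Set E) (k : ℕ) (F : Set E) : Prop :=
  F.Nonempty ∧ IsExposed ℝ P F ∧ dim F = k

/-- regular polygon: the symmetry group is transitive on flags (vertex, edge through it) -/
def IsRegularPolygon (P : Set E) : Prop :=
  IsPolytope 2 P ∧ ∀ v ∈ P.extremePoints ℝ, ∀ v' ∈ P.extremePoints ℝ, ∀ e e' : Set E,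
    IsFace P 1 e → IsFace P 1 e' → v ∈ e → v' ∈ e' →
      ∃ f : E ≃ᵢ E, f '' P = P ∧ f v = v' ∧ f '' e = e'

/-- uniform `n`-polytope -/
inductive IsUniform : ℕ → Set E → Prop
  | polygon (P : Set E) : IsRegularPolygon P → IsUniform 2 P
  | step (n : ℕ) (P : Set E) : 2 ≤ n → IsPolytope (n + 1) P →
      (∀ v ∈ P.extremePoints ℝ, ∀ v' ∈ P.extremePoints ℝ, ∃ f : E ≃ᵢ E, f '' P = P ∧ f v = v') →
      (∀ F, IsFace P n F → IsUniform n F) → IsUniform (n + 1) P

/-- similarity -/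
def Similar (P Q : Set E) : Prop :=
  ∃ (t : ℝ) (f : E ≃ᵢ E), 0 < t ∧ P = f '' (t • Q)

/-- finite group generated by reflections in linear hyperplanes -/
def IsReflectionGroup [FiniteDimensional ℝ E] (W : Subgroup (E ≃ₗᵢ[ℝ] E)) : Prop :=
  Finite W ∧ ∃ S : Set E, (∀ a ∈ S, a ≠ 0) ∧
    W = Subgroup.closure ((fun a : E => (ℝ ∙ a)ᗮ.reflection) '' S)

/-- translate of the hull of an orbit of a finite reflection group -/
def IsOrbitHull [FiniteDimensional ℝ E] (P : Set E) : Prop :=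
  ∃ (W : Subgroup (E ≃ₗᵢ[ℝ] E)) (c v : E), IsReflectionGroup W ∧
    P = convexHull ℝ {x | ∃ w ∈ W, x = c + w v}

/-- translate of the hull of an orbit of the rotation subgroup of a finite reflection group -/
def IsSnubHull [FiniteDimensional ℝ E] (P : Set E) : Prop :=
  ∃ (W : Subgroup (E ≃ₗᵢ[ℝ] E)) (c v : E), IsReflectionGroup W ∧
    P = convexHull ℝ {x | ∃ w ∈ W, LinearMap.det (w.toLinearEquiv : E →ₗ[ℝ] E) = 1 ∧ x = c + w v}

/-- Wythoffian: orbit hull, snub hull, or an orthogonal product of such -/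
inductive IsWythoffian [FiniteDimensional ℝ E] : Set E → Prop
  | orbit (P : Set E) : IsOrbitHull P → IsWythoffian P
  | snub (P : Set E) : IsSnubHull P → IsWythoffian P
  | prod (A B : Set E) : IsWythoffian A → IsWythoffian B →
      vectorSpan ℝ A ⟂ vectorSpan ℝ B → IsWythoffian (A + B)

/-- the golden ratio -/
def phi : ℝ := (1 + Real.sqrt 5) / 2

/-- the 120 vertices of the 600-cell of circumradius 1 (edge length `1 / phi`) -/
def cell600 : Set (Fin 4 → ℝ) :=
  {x | (∃ i, |x i| = 1 ∧ ∀ j, j ≠ i → x j = 0) ∨ (∀ i, |x i| = 1 / 2) ∨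
    ∃ σ : Equiv.Perm (Fin 4), Equiv.Perm.sign σ = 1 ∧
      |x (σ 0)| = phi / 2 ∧ |x (σ 1)| = 1 / 2 ∧ |x (σ 2)| = phi⁻¹ / 2 ∧ x (σ 3) = 0}

/-- the 100 vertices of the grand antiprism: remove two completely orthogonal great decagons -/
def grandVerts : Set (Fin 4 → ℝ) :=
  {x ∈ cell600 | ¬ (x 3 = 0 ∧ x 1 = phi * x 2) ∧ ¬ (x 0 = 0 ∧ x 2 = -(phi * x 1))}

/-- the prism over the grand antiprism -/
def grandPrism : Set E5 :=
  convexHull ℝ {y : E5 | (fun i : Fin 4 => y i.castSucc) ∈ grandVerts ∧ (y 4 = 0 ∨ y 4 = phi⁻¹)}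

end

end Pool.Agent.MP_7fd204_co
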